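import Pool.Agent.Lib.MP_16d611_an.ThmB
import Pool.Agent.Lib.MP_16d611_an.Transfer

/-! The complete (matrix valued) form of the Crouzeix type bound for scaled `q`-numerical ranges. -/

set_option autoImplicit false

namespace Pool.Agent.Results.MP_16d611_an.CompleteBound

open Polynomial

noncomputable section

/-- operator norm of a square matrix for the Euclidean norm -/
def opNorm {ι : Type} [Fintype ι] [DecidableEq ι] (B : Matrix ι ι ℂ) : ℝ :=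
  ‖Matrix.toEuclideanCLM (n := ι) (𝕜 := ℂ) B‖

/-- `⟨x, y⟩ = ∑ x_i conj y_i` -/
def ip {n : ℕ} (x y : Fin n → ℂ) : ℂ := ∑ i, x i * (starRingEnd ℂ) (y i)

/-- Euclidean norm -/
def vnorm {n : ℕ} (x : Fin n → ℂ) : ℝ := Real.sqrt (∑ i, ‖x i‖ ^ 2)

/-- the `q`-numerical range -/
def Wq {n : ℕ} (q : ℂ) (A : Matrix (Fin n) (Fin n) ℂ) : Set ℂ :=
  {w | ∃ x y : Fin n → ℂ, vnorm x = 1 ∧ vnorm y = 1 ∧ ip x y = q ∧ w = ip (A.mulVec x) y}

/-- the scaled `q`-numerical range -/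
def Omega {n : ℕ} (q : ℂ) (A : Matrix (Fin n) (Fin n) ℂ) : Set ℂ := (fun w => w / q) '' Wq q A

/-- the constant `c(q)` -/
def c (q : ℂ) : ℝ := max 1 (2 * ‖q‖ / (1 + Real.sqrt (1 - ‖q‖ ^ 2)))

/-- the value `P(z)` of an `m × m` matrix of polynomials -/
def valueAt {m : ℕ} (P : Matrix (Fin m) (Fin m) ℂ[X]) (z : ℂ) : Matrix (Fin m) (Fin m) ℂ :=
  P.map (Polynomial.eval z)

/-- the block matrix `P(A)` with blocks `p_ab(A)` -/
def valueOp {m n : ℕ} (P : Matrix (Fin m) (Fin m) ℂ[X]) (A : Matrix (Fin n) (Fin n) ℂ) :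
    Matrix (Fin m × Fin n) (Fin m × Fin n) ℂ :=
  Matrix.of fun s t => Polynomial.aeval A (P s.1 t.1) s.2 t.2

open Pool.Agent.Lib.MP_16d611_an in
lemma omega_eq {n : ℕ} (q : ℂ) (A : Matrix (Fin n) (Fin n) ℂ) :
    Omega q A = omegaH q (Matrix.toEuclideanCLM (n := Fin n) (𝕜 := ℂ) A) := by
  have hn : ∀ x : EuclideanSpace ℂ (Fin n), vnorm x.ofLp = ‖x‖ := fun x =>
    (EuclideanSpace.norm_eq x).symm
  have hi : ∀ x y : EuclideanSpace ℂ (Fin n), ip x.ofLp y.ofLp = inner ℂ y x := fun x y => by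
    simp [ip, PiLp.inner_apply]
  have hA : ∀ x : EuclideanSpace ℂ (Fin n),
      (Matrix.toEuclideanCLM (n := Fin n) (𝕜 := ℂ) A x).ofLp = A.mulVec x.ofLp := fun x =>
    Matrix.ofLp_toEuclideanCLM A x
  ext z
  constructor
  · rintro ⟨_, ⟨x, y, hx, hy, hxy, rfl⟩, rfl⟩
    refine ⟨WithLp.toLp 2 x, WithLp.toLp 2 y, by rw [← hn]; exact hx, by rw [← hn]; exact hy,
      by rw [← hi]; exact hxy, ?_⟩
    rw [← hi, hA]
  · rintro ⟨x, y, hx, hy, hxy, rfl⟩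
    refine ⟨_, ⟨x.ofLp, y.ofLp, by rw [hn, hx], by rw [hn, hy], by rw [hi, hxy], rfl⟩, ?_⟩
    rw [← hi, hA]

lemma cont_value {m : ℕ} (P : Matrix (Fin m) (Fin m) ℂ[X]) :
    Continuous fun z => opNorm (valueAt P z) := by
  have h1 : Continuous fun z => valueAt P z :=
    continuous_matrix fun a b => (P a b).continuous
  have h2 : Continuous fun B : Matrix (Fin m) (Fin m) ℂ =>
      Matrix.toEuclideanCLM (n := Fin m) (𝕜 := ℂ) B :=
    LinearMap.continuous_of_finiteDimensional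
      ({ toFun := fun B => Matrix.toEuclideanCLM (n := Fin m) (𝕜 := ℂ) B
         map_add' := fun B B' => map_add _ B B'
         map_smul' := fun t B => map_smul _ t B } :
        Matrix (Fin m) (Fin m) ℂ →ₗ[ℂ] (EuclideanSpace ℂ (Fin m) →L[ℂ] EuclideanSpace ℂ (Fin m)))
  exact (h2.comp h1).norm

open Pool.Agent.Lib.MP_16d611_an in
theorem result (m n : ℕ) (A : Matrix (Fin n) (Fin n) ℂ) (q : ℂ) (hq0 : 0 < ‖q‖) (hq1 : ‖q‖ ≤ 1)
    (hn : 2 ≤ n ∨ (n = 1 ∧ ‖q‖ = 1)) (P : Matrix (Fin m) (Fin m) ℂ[X]) :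
    opNorm (valueOp P A) ≤ c q * sSup ((fun z => opNorm (valueAt P z)) '' Omega q A) := by
  set T := Matrix.toEuclideanCLM (n := Fin n) (𝕜 := ℂ) A with hT
  set C := sSup ((fun z => opNorm (valueAt P z)) '' Omega q A) with hCdef
  have hC : 0 ≤ C := Real.sSup_nonneg (by rintro _ ⟨z, -, rfl⟩; exact norm_nonneg _)
  have hsub : Omega q A ⊆ Metric.closedBall 0 (‖T‖ / ‖q‖) := by
    rw [omega_eq]
    rintro _ ⟨x, y, hx, hy, -, rfl⟩
    rw [mem_closedBall_zero_iff, norm_div]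
    refine div_le_div_of_nonneg_right ?_ hq0.le
    calc ‖inner ℂ y (T x)‖ ≤ ‖y‖ * ‖T x‖ := norm_inner_le_norm _ _
      _ ≤ ‖y‖ * (‖T‖ * ‖x‖) := by gcongr; exact T.le_opNorm x
      _ = ‖T‖ := by rw [hx, hy]; ring
  have hbdd : BddAbove ((fun z => opNorm (valueAt P z)) '' Omega q A) :=
    ((isCompact_closedBall (0 : ℂ) (‖T‖ / ‖q‖)).bddAbove_image
      (cont_value P).continuousOn).mono (Set.image_mono hsub)
  have hP : ∀ z ∈ omegaH q T, Bd (evP P z) C := fun z hz =>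
    (bd_iff_norm _ hC).2 (le_csSup hbdd ⟨z, by rw [omega_eq]; exact hz, rfl⟩)
  have hn' : 2 ≤ Module.finrank ℂ (EuclideanSpace ℂ (Fin n)) ∨ ‖q‖ = 1 := by
    rw [finrank_euclideanSpace_fin]
    exact hn.imp id And.right
  have hc : 0 ≤ cq q := zero_le_one.trans (le_max_left _ _)
  exact norm_le_of_bdOp A P (mul_nonneg hc hC) (thmB (norm_pos_iff.1 hq0) hq1 hn' T P hC hP)

end

end Pool.Agent.Results.MP_16d611_an.CompleteBound
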